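import Pool.Agent.T2h19.AP.Stm

set_option autoImplicit false

open MvPolynomial

namespace Pool.Agent.T2h99.AP

open Pool.Agent.T2h19.AP

theorem agr_ : S_AGR := by
  intro ι _ _ K hK d s s' g g' hs hs' hag
  have h1 : ∀ w ∈ K.W, g w = g' w := by
    intro w hw
    have h2 : K.q w * (g w - g' w) = 0 := by
      apply MvPolynomial.funext
      intro u
      rw [map_mul, map_zero, map_sub]
      by_cases hq : eval u (K.q w) = 0
      · rw [hq, zero_mul]
      · have h3 : K.L 0 (w (K.pt u)) ≠ 0 := by rwa [K.eval_q] at hq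
        have h4 : w (K.pt u) ∈ K.C := (hK.mem_iff w hw _).2 (Cells.pt_mem hK u)
        have h5 := hag _ h4 h3
        have h6 := hs w hw 1 one_ne_zero u
        have h7 := hs' w hw 1 one_ne_zero u
        rw [one_smul, one_zpow, one_mul] at h6 h7
        rw [← h6, ← h7, h5, sub_self, mul_zero]
    rcases mul_eq_zero.1 h2 with h3 | h3
    · exact absurd h3 (hK.q_ne w hw)
    · exact sub_eq_zero.1 h3
  refine ⟨?_, h1⟩
  intro z hz hz0
  obtain ⟨w, hw, t, u, ht, hz'⟩ := hK.cover z hz hz0
  have h6 := hs w hw t ht u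
  have h7 := hs' w hw t ht u
  rw [hz']
  show s (w (t • K.pt u)) = s' (w (t • K.pt u))
  rw [h6, h7, h1 w hw]

end Pool.Agent.T2h99.AP
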