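import Pool.Agent.T2h19.AP.Stm

set_option autoImplicit false

open MvPolynomial

namespace Pool.Agent.T2h99.AP

open Pool.Agent.T2h19.AP

/-- On combinations of `b`, an alternating form is its value at `b` times the determinant. -/
theorem alt_det {ι : Type} [Fintype ι] (f : (ι → ℂ) [⋀^Fin 7]→ₗ[ℂ] ℂ) (b : Fin 7 → ι → ℂ)
    (c : Fin 7 → Fin 7 → ℂ) :
    f (fun i => ∑ j, c i j • b j) = f b * (Pi.basisFun ℂ (Fin 7)).det c := by
  have h := AlternatingMap.eq_smul_basis_det (Pi.basisFun ℂ (Fin 7))
    (f.compLinearMap (Fintype.linearCombination ℂ b))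
  have h1 := congrArg (fun g => g c) h
  simp only [AlternatingMap.compLinearMap_apply, AlternatingMap.smul_apply, smul_eq_mul] at h1
  have h2 : (fun i => (Fintype.linearCombination ℂ b) (c i)) = fun i => ∑ j, c i j • b j := by
    funext i
    rw [Fintype.linearCombination_apply]
  have h3 : (fun i => (Fintype.linearCombination ℂ b) ((Pi.basisFun ℂ (Fin 7)) i)) = b := by
    funext i
    rw [Pi.basisFun_apply, Fintype.linearCombination_apply_single, one_smul]
  rw [h2, h3] at h1
  exact h1

theorem alt_ : S_ALT := by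
  intro ι _ f g b κ h v hv
  have h1 : ∀ i, ∃ c : Fin 7 → ℂ, ∑ j, c j • b j = v i := by
    intro i
    exact (Submodule.mem_span_range_iff_exists_fun ℂ).1 (hv i)
  choose c hc using h1
  have hv' : v = fun i => ∑ j, c i j • b j := by
    funext i; exact (hc i).symm
  rw [hv', alt_det f b c, alt_det g b c, h]
  ring

end Pool.Agent.T2h99.AP
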