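import Pool.Agent.T2h19.AP.Stm2

set_option autoImplicit false

open MvPolynomial

namespace Pool.Agent.T2h99.AP

open Pool.Agent.T2h19.AP

/-- `detV` as a linear function of `x ∧ y`. -/
def DV (v : Fin 3 → ℂ) (z : I4 → ℂ) : ℂ :=
  ∑ c : Fin 3, ∑ d : Fin 3, v c * v d *
    (v 0 * z ((1, c), (2, d)) + v 1 * z ((2, c), (0, d)) + v 2 * z ((0, c), (1, d)))

/-- `detF` as a linear function of `x ∧ y`. -/
def DF (f : Fin 3 → ℂ) (z : I4 → ℂ) : ℂ :=
  ∑ c : Fin 3, ∑ d : Fin 3, f c * f d *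
    (f 0 * z ((c, 1), (d, 2)) + f 1 * z ((c, 2), (d, 0)) + f 2 * z ((c, 0), (d, 1)))

theorem DV_smul (v : Fin 3 → ℂ) (t : ℂ) (z : I4 → ℂ) : DV v (t • z) = t * DV v z := by
  simp only [DV, Fin.sum_univ_three, Pi.smul_apply, smul_eq_mul]
  ring

theorem DF_smul (f : Fin 3 → ℂ) (t : ℂ) (z : I4 → ℂ) : DF f (t • z) = t * DF f z := by
  simp only [DF, Fin.sum_univ_three, Pi.smul_apply, smul_eq_mul]
  ring

theorem det_rows (a b c : Fin 3 → ℂ) : Matrix.det (Matrix.of ![a, b, c])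
    = a 0 * b 1 * c 2 - a 0 * b 2 * c 1 - a 1 * b 0 * c 2 + a 1 * b 2 * c 0 + a 2 * b 0 * c 1
      - a 2 * b 1 * c 0 := by
  rw [Matrix.det_fin_three]
  rfl

theorem DV_wedge (v : Fin 3 → ℂ) (x y : M3) : DV v (wedge x y) = detV x y v := by
  unfold detV
  rw [det_rows]
  simp only [DV, wedge, Fin.sum_univ_three, Matrix.mulVec, dotProduct]
  ring

theorem DF_wedge (f : Fin 3 → ℂ) (x y : M3) : DF f (wedge x y) = detF x y f := by
  unfold detF
  rw [det_rows]
  simp only [DF, wedge, Fin.sum_univ_three, Matrix.vecMul, dotProduct]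
  ring

theorem rows_mulVec (k : M3) (a b c : Fin 3 → ℂ) :
    Matrix.det (Matrix.of ![k.mulVec a, k.mulVec b, k.mulVec c])
      = k.det * Matrix.det (Matrix.of ![a, b, c]) := by
  have h : Matrix.of ![k.mulVec a, k.mulVec b, k.mulVec c]
      = Matrix.of ![a, b, c] * k.transpose := by
    ext i j
    fin_cases i <;> simp [Matrix.mul_apply, Matrix.mulVec, dotProduct, mul_comm]
  rw [h, Matrix.det_mul, Matrix.det_transpose, mul_comm]

theorem rows_vecMul (k : M3) (a b c : Fin 3 → ℂ) :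
    Matrix.det (Matrix.of ![Matrix.vecMul a k, Matrix.vecMul b k, Matrix.vecMul c k])
      = k.det * Matrix.det (Matrix.of ![a, b, c]) := by
  have h : Matrix.of ![Matrix.vecMul a k, Matrix.vecMul b k, Matrix.vecMul c k]
      = Matrix.of ![a, b, c] * k := by
    ext i j
    fin_cases i <;> simp [Matrix.mul_apply, Matrix.vecMul, dotProduct]
  rw [h, Matrix.det_mul, mul_comm]

theorem detV_conj (k k' x y : M3) (h : k * k' = 1) (v : Fin 3 → ℂ) :
    detV (k * x * k') (k * y * k') v = k.det * detV x y (k'.mulVec v) := by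
  unfold detV
  rw [← rows_mulVec]
  congr 4
  · rw [Matrix.mulVec_mulVec, h, Matrix.one_mulVec]
  · rw [Matrix.mulVec_mulVec, Matrix.mulVec_mulVec]
  · rw [Matrix.mulVec_mulVec, Matrix.mulVec_mulVec]

theorem detF_conj (k k' x y : M3) (h : k * k' = 1) (f : Fin 3 → ℂ) :
    detF (k * x * k') (k * y * k') f = k'.det * detF x y (Matrix.vecMul f k) := by
  unfold detF
  rw [← rows_vecMul]
  congr 4
  · rw [Matrix.vecMul_vecMul, h, Matrix.vecMul_one]
  · rw [Matrix.vecMul_vecMul, Matrix.vecMul_vecMul, Matrix.mul_assoc]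
  · rw [Matrix.vecMul_vecMul, Matrix.vecMul_vecMul, Matrix.mul_assoc]

theorem tl_apply (x : M3) (i j : Fin 3) :
    tl x i j = x i j - if i = j then (1 / 3) * x.trace else 0 := by
  simp [tl, Matrix.scalar_apply, Matrix.diagonal_apply]

theorem detV_tl (x y : M3) (v : Fin 3 → ℂ) : detV (tl x) (tl y) v = detV x y v := by
  have h : ∀ (x : M3), (tl x).mulVec v = fun i => x.mulVec v i - (1 / 3) * x.trace * v i := by
    intro x
    funext i
    simp only [Matrix.mulVec, dotProduct, tl_apply, Fin.sum_univ_three]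
    fin_cases i <;> simp <;> ring
  unfold detV
  rw [det_rows, det_rows, h x, h y]
  ring

theorem detF_tl (x y : M3) (v : Fin 3 → ℂ) : detF (tl x) (tl y) v = detF x y v := by
  have h : ∀ (x : M3), Matrix.vecMul v (tl x)
      = fun i => Matrix.vecMul v x i - (1 / 3) * x.trace * v i := by
    intro x
    funext i
    simp only [Matrix.vecMul, dotProduct, tl_apply, Fin.sum_univ_three]
    fin_cases i <;> simp <;> ring
  unfold detF
  rw [det_rows, det_rows, h x, h y]
  ring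

theorem tl_trace (x : M3) : (tl x).trace = 0 := by
  rw [Matrix.trace_fin_three, tl_apply, tl_apply, tl_apply, Matrix.trace_fin_three]
  simp
  ring

theorem tl_comm (x y : M3) (h : x * y = y * x) : tl x * tl y = tl y * tl x := by
  unfold tl
  have h1 : ∀ (c : ℂ) (z : M3), Matrix.scalar (Fin 3) c * z = z * Matrix.scalar (Fin 3) c := by
    intro c z
    exact (Matrix.scalar_commute c (fun r => mul_comm c r) z)
  rw [sub_mul, sub_mul, mul_sub, mul_sub, mul_sub, mul_sub, h, h1 _ y, h1 _ x, h1 _ (Matrix.scalar (Fin 3) _)]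
  abel

/-- On the basic cell `detV (mA u) (mB u) e_0 = 1`. -/
theorem detV_e0 (u : Fin 6 → ℂ) (v : Fin 3 → ℂ) (hv : ∀ i, v i = if i = 0 then 1 else 0) :
    detV (mA u) (mB u) v = 1 := by
  unfold detV
  have h0 : v 0 = 1 := hv 0
  have h1 : v 1 = 0 := hv 1
  have h2 : v 2 = 0 := hv 2
  rw [det_rows]
  simp [Matrix.mulVec, dotProduct, Fin.sum_univ_three, mA, mB, h0, h1, h2]

/-- The polynomials `P_j`. -/
noncomputable def PP (k k' : M3) (j : Fin 6) : MvPolynomial (Fin 6) ℂ :=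
  C (k.det)⁻¹ * pull φ0 (form (L0 j.succ ∘ₗ ad k k'))

theorem eval_PP (k k' : M3) (j : Fin 6) (u : Fin 6 → ℂ) :
    eval u (PP k k' j) = L0 j.succ (ad k k' (ev φ0 u)) / k.det := by
  unfold PP
  rw [map_mul, eval_C, eval_pull, eval_form]
  rw [LinearMap.comp_apply, div_eq_inv_mul]

/-- The substitution `u ↦ P u`. -/
noncomputable def PS (k k' : M3) : MvPolynomial (Fin 6) ℂ →ₐ[ℂ] MvPolynomial (Fin 6) ℂ :=
  aeval (PP k k')

/-- The map `u ↦ P u`. -/
noncomputable def PM (k k' : M3) (u : Fin 6 → ℂ) : Fin 6 → ℂ :=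
  fun j => L0 j.succ (ad k k' (ev φ0 u)) / k.det

theorem eval_PS (k k' : M3) (F : MvPolynomial (Fin 6) ℂ) (u : Fin 6 → ℂ) :
    eval u (PS k k' F) = eval (PM k k' u) F := by
  unfold PS
  rw [aeval_def, ← coe_eval₂Hom, ← RingHom.comp_apply]
  have : (eval u).comp (eval₂Hom (algebraMap ℂ (MvPolynomial (Fin 6) ℂ)) (PP k k')) =
      eval (PM k k' u) := by
    apply MvPolynomial.ringHom_ext
    · intro r
      simp [algebraMap_eq]
    · intro i
      simp only [RingHom.comp_apply, coe_eval₂Hom, eval₂_X, eval_X]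
      exact eval_PP k k' i u
  rw [this]

section

variable (hEVA : S_EVA) (hNRM : S_NRM) (hADW : S_ADW) (hQAD : S_QAD) (hCEV : S_CEV)

include hEVA hADW in
theorem ad_ev (k k' : M3) (u : Fin 6 → ℂ) :
    ad k k' (ev φ0 u) = wedge (k * tl (mA u) * k') (k * tl (mB u) * k') := by
  rw [hEVA.1 u, hADW.1]

theorem fix' (k k' : M3) (h' : k' * k = 1) (h0 : ∀ i, k i 0 = if i = 0 then 1 else 0) :
    ∀ i, k' i 0 = if i = 0 then 1 else 0 := by
  intro i
  have h1 : (k' * k) i 0 = k' i 0 := by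
    rw [Matrix.mul_apply, Fin.sum_univ_three, h0 0, h0 1, h0 2]
    simp
  rw [← h1, h', Matrix.one_apply]

include hQAD in
theorem L0_ad (k k' : M3) (h : k * k' = 1) (h' : k' * k = 1)
    (h0 : ∀ i, k i 0 = if i = 0 then 1 else 0) (u : Fin 6 → ℂ) :
    L0 0 (ad k k' (ev φ0 u)) = k.det := by
  rw [(hQAD k k' h h' u).1, detV_e0 u _ (fix' k k' h' h0), mul_one]

theorem det_ne (k k' : M3) (h : k * k' = 1) : k.det ≠ 0 := by
  intro hc
  have h1 := congrArg Matrix.det h
  rw [Matrix.det_mul, hc, zero_mul, Matrix.det_one] at h1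
  exact zero_ne_one h1

theorem det_mul_one (k k' : M3) (h : k * k' = 1) : k.det * k'.det = 1 := by
  have h1 := congrArg Matrix.det h
  rwa [Matrix.det_mul, Matrix.det_one] at h1

include hEVA hNRM hADW hQAD in
theorem ad_eq (k k' : M3) (h : k * k' = 1) (h' : k' * k = 1)
    (h0 : ∀ i, k i 0 = if i = 0 then 1 else 0) (u : Fin 6 → ℂ) :
    ad k k' (ev φ0 u) = k.det • ev φ0 (PM k k' u) := by
  have hL := L0_ad hQAD k k' h h' h0 u
  have e := ad_ev hEVA hADW k k' u
  have tr : ∀ x : M3, x.trace = 0 → (k * x * k').trace = 0 := by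
    intro x hx
    rw [Matrix.trace_mul_comm, ← Matrix.mul_assoc, h', Matrix.one_mul, hx]
  have cm : ∀ x y : M3, x * y = y * x → (k * x * k') * (k * y * k') = (k * y * k') * (k * x * k') := by
    intro x y hxy
    have a1 : ∀ x y : M3, (k * x * k') * (k * y * k') = k * (x * y) * k' := by
      intro x y
      calc (k * x * k') * (k * y * k') = k * x * (k' * k) * y * k' := by
            simp only [Matrix.mul_assoc]
        _ = k * (x * y) * k' := by rw [h', Matrix.mul_one]; simp only [Matrix.mul_assoc]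
    rw [a1, a1, hxy]
  have n := hNRM (k * tl (mA u) * k') (k * tl (mB u) * k') (tr _ (tl_trace _)) (tr _ (tl_trace _))
    (cm _ _ (tl_comm _ _ (hEVA.2.2.2.1 u))) (by rw [← e, hL]; exact det_ne k k' h)
  rw [← e, hL] at n
  exact n

include hEVA hNRM hADW hQAD in
theorem PM_inv (k k' : M3) (h : k * k' = 1) (h' : k' * k = 1)
    (h0 : ∀ i, k i 0 = if i = 0 then 1 else 0) (u : Fin 6 → ℂ) :
    PM k' k (PM k k' u) = u := by
  have h0' := fix' k k' h' h0
  have e1 := ad_eq hEVA hNRM hADW hQAD k k' h h' h0 u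
  have e2 := ad_eq hEVA hNRM hADW hQAD k' k h' h h0' (PM k k' u)
  have e3 : ad k' k (ad k k' (ev φ0 u)) = ev φ0 u := by
    rw [ad_ev hEVA hADW, hADW.1, hEVA.1 u]
    have a : ∀ x : M3, k' * (k * x * k') * k = x := by
      intro x
      calc k' * (k * x * k') * k = (k' * k) * x * (k' * k) := by simp only [Matrix.mul_assoc]
        _ = x := by rw [h', Matrix.one_mul, Matrix.mul_one]
    rw [a, a]
  rw [e1, map_smul, e2, smul_smul, det_mul_one k k' h, one_smul] at e3
  funext j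
  rw [← hEVA.2.2.1 (PM k' k (PM k k' u)) j, e3, hEVA.2.2.1 u j]

include hEVA hNRM hADW hQAD hCEV in
theorem cV_eq (k k' : M3) (h : k * k' = 1) (h' : k' * k = 1)
    (h0 : ∀ i, k i 0 = if i = 0 then 1 else 0) (v : Fin 3 → ℂ) :
    cV (k'.mulVec v) = PS k k' (cV v) := by
  apply MvPolynomial.funext
  intro u
  rw [eval_PS, (hCEV _ _).1, (hCEV _ _).1]
  have e1 := ad_eq hEVA hNRM hADW hQAD k k' h h' h0 u
  have e2 := congrArg (DV v) e1
  rw [ad_ev hEVA hADW, DV_wedge, detV_conj k k' _ _ h, detV_tl, DV_smul, hEVA.1, DV_wedge,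
    detV_tl] at e2
  exact mul_left_cancel₀ (det_ne k k' h) e2

include hEVA hNRM hADW hQAD hCEV in
theorem cF_eq (k k' : M3) (h : k * k' = 1) (h' : k' * k = 1)
    (h0 : ∀ i, k i 0 = if i = 0 then 1 else 0) (f : Fin 3 → ℂ) :
    cF (Matrix.vecMul f k) = C (k.det ^ 2) * PS k k' (cF f) := by
  apply MvPolynomial.funext
  intro u
  rw [map_mul, eval_C, eval_PS, (hCEV _ _).2, (hCEV _ _).2]
  have e1 := ad_eq hEVA hNRM hADW hQAD k k' h h' h0 u
  have e2 := congrArg (DF f) e1
  rw [ad_ev hEVA hADW, DF_wedge, detF_conj k k' _ _ h, detF_tl, DF_smul, hEVA.1, DF_wedge,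
    detF_tl] at e2
  have e3 := det_mul_one k k' h
  calc detF (mA u) (mB u) (Matrix.vecMul f k)
      = (k.det * k'.det) * detF (mA u) (mB u) (Matrix.vecMul f k) := by rw [e3, one_mul]
    _ = k.det * (k'.det * detF (mA u) (mB u) (Matrix.vecMul f k)) := by ring
    _ = _ := by rw [e2]; ring

end

theorem cpr_ (hEVA : S_EVA) (hNRM : S_NRM) (hADW : S_ADW) (hQAD : S_QAD) (hCEV : S_CEV) :
    S_CPR := by
  intro k k' h h' h0 v f hvf d hd1 hd2
  have h0' := fix' k k' h' h0
  rw [cV_eq hEVA hNRM hADW hQAD hCEV k k' h h' h0] at hd1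
  rw [cF_eq hEVA hNRM hADW hQAD hCEV k k' h h' h0] at hd2
  have inv1 : ∀ F, PS k' k (PS k k' F) = F := by
    intro F
    apply MvPolynomial.funext
    intro u
    rw [eval_PS, eval_PS, PM_inv hEVA hNRM hADW hQAD k' k h' h h0' u]
  have inv2 : ∀ F, PS k k' (PS k' k F) = F := by
    intro F
    apply MvPolynomial.funext
    intro u
    rw [eval_PS, eval_PS, PM_inv hEVA hNRM hADW hQAD k k' h h' h0 u]
  have g1 : PS k' k d ∣ cV v := by
    have := map_dvd (PS k' k) hd1
    rwa [inv1] at this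
  have g2 : PS k' k d ∣ cF f := by
    have := map_dvd (PS k' k) hd2
    rw [map_mul, inv1] at this
    have hu : IsUnit (PS k' k (C (k.det ^ 2))) := by
      apply IsUnit.map
      apply IsUnit.map
      exact (pow_ne_zero 2 (det_ne k k' h)).isUnit
    exact (hu.dvd_mul_left).1 this
  have g3 := hvf g1 g2
  have g4 := g3.map (PS k k')
  rwa [inv2] at g4

end Pool.Agent.T2h99.AP
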