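import Pool.Agent.T2h19.AP.Stm

set_option autoImplicit false

open MvPolynomial

namespace Pool.Agent.T2h99.AP

open Pool.Agent.T2h19.AP

theorem dim_ (hVAR : S_VAR) (hOMF : S_OMF) (hTAN : S_TAN) : S_DIM := by
  intro ι _ _ K hK z hz
  have h1 := ((hVAR ι K hK).2 z).1 hz
  obtain ⟨w, hw, t, u, ht, hz'⟩ := hK.cover z h1.1 h1.2
  have h2 := hTAN ι K hK w hw t ht u
  have h3 : z = w (t • K.pt u) := hz'
  rw [h3, h2]
  have h4 : LinearIndependent ℂ (frame K.φ u) := by
    by_contra hc
    have h5 := AlternatingMap.map_linearDependent (omega K.L) (frame K.φ u) hc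
    rw [(hOMF ι K hK u).1] at h5
    exact one_ne_zero h5
  have h6 : LinearIndependent ℂ (fun i => w (frame K.φ u i)) :=
    h4.map' w.toLinearMap (LinearEquiv.ker w)
  rw [finrank_span_eq_card h6, Fintype.card_fin]

end Pool.Agent.T2h99.AP
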