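import Pool.Agent.T2h19.AP.Stm

set_option autoImplicit false

open MvPolynomial

namespace Pool.Agent.T2h99.AP

open Pool.Agent.T2h19.AP

theorem eval_smul_hom {ι : Type} (F : MvPolynomial ι ℂ) (n : ℕ) (hF : F.IsHomogeneous n)
    (t : ℂ) (z : ι → ℂ) : eval (t • z) F = t ^ n * eval z F := by
  rw [eval_eq, eval_eq, Finset.mul_sum]
  apply Finset.sum_congr rfl
  intro m hm
  have h1 : ∑ i ∈ m.support, m i = n := by
    have := hF (MvPolynomial.mem_support_iff.1 hm)
    rw [Finsupp.weight_apply] at this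
    simpa [Finsupp.sum] using this
  simp only [Pi.smul_apply, smul_eq_mul, mul_pow, Finset.prod_mul_distrib, Finset.prod_pow_eq_pow_sum,
    h1]
  ring

theorem frm_ : S_FRM := by
  intro ι _ _ K F n hF w _ t _ u
  show eval (w (t • K.pt u)) F = t ^ (n : ℤ) * eval u (pull K.φ (subst w.toLinearMap F))
  rw [eval_pull, eval_subst, map_smul, eval_smul_hom F n hF, zpow_natCast]
  rfl

end Pool.Agent.T2h99.AP
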