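import Pool.Agent.T2h19.AP.Stm

set_option autoImplicit false

open MvPolynomial

namespace Pool.Agent.T2h99.AP

open Pool.Agent.T2h19.AP

theorem gam_ (hOMF : S_OMF) (hALT : S_ALT) (hTAN : S_TAN) : S_GAM := by
  intro ι _ _ K hK hN z hz hL v hv
  have h1 := Cells.eq_smul hK hz hL
  set t := K.L 0 z with ht
  set u : Fin 6 → ℂ := fun j => K.L j.succ z / t with hu
  have h2 := hTAN ι K hK _ hN.one_mem t hL u
  have h3 : ∀ i, v i ∈ Submodule.span ℂ (Set.range (frame K.φ u)) := by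
    intro i
    have h4 := hv i
    rw [h1] at h4
    have h5 : (LinearEquiv.refl ℂ (ι → ℂ)) (t • K.pt u) = t • K.pt u := rfl
    rw [← h5, h2] at h4
    exact h4
  have hc : ∀ x : Fin 7 → ι → ℂ, ((omega K.L).compLinearMap K.γ.toLinearMap) x
      = omega K.L (fun i => K.γ (x i)) := by
    intro x
    rw [AlternatingMap.compLinearMap_apply]
    exact congrArg _ (funext fun i => rfl)
  have h6 := hALT ι ((omega K.L).compLinearMap K.γ.toLinearMap) (omega K.L) (frame K.φ u)
    (K.κ * K.L 0 (K.γ (ev K.φ u)) ^ 4) (by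
      rw [(hOMF ι K hK u).1, mul_one, hc]
      exact hN.jac u) v h3
  rw [hc] at h6
  have h7 : omega K.L (fun i => K.γ (v i))
      = K.κ * K.L 0 (K.γ (ev K.φ u)) ^ 4 * omega K.L v := h6
  rw [h7]
  have h8 : K.L 0 (K.γ z) = t * K.L 0 (K.γ (ev K.φ u)) := by
    conv_lhs => rw [h1]
    rw [map_smul, map_smul, smul_eq_mul]
    rfl
  rw [h8]
  ring

end Pool.Agent.T2h99.AP
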