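import Pool.Agent.T2h19.AP.Stm

set_option autoImplicit false

open MvPolynomial

namespace Pool.Agent.T2h99.AP

open Pool.Agent.T2h19.AP

theorem pull_form {ι : Type} [Fintype ι] [DecidableEq ι] (φ : ι → MvPolynomial (Fin 6) ℂ)
    (l : (ι → ℂ) →ₗ[ℂ] ℂ) :
    pull φ (form l) = ∑ i, C (l (Pi.single i 1)) * φ i := by
  unfold pull form
  rw [map_sum]
  apply Finset.sum_congr rfl
  intro i _
  rw [map_mul, aeval_X, aeval_C]
  rfl

theorem lin_eq {ι : Type} [Fintype ι] [DecidableEq ι] (l : (ι → ℂ) →ₗ[ℂ] ℂ) (z : ι → ℂ) :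
    l z = ∑ i, l (Pi.single i 1) * z i := by
  rw [← eval_form l z]
  unfold form
  rw [map_sum]
  apply Finset.sum_congr rfl
  intro i _
  rw [map_mul, eval_C, eval_X]

theorem dev_form {ι : Type} [Fintype ι] [DecidableEq ι] (φ : ι → MvPolynomial (Fin 6) ℂ)
    (l : (ι → ℂ) →ₗ[ℂ] ℂ) (a : Fin 6) (u : Fin 6 → ℂ) :
    l (dev φ a u) = eval u (pderiv a (pull φ (form l))) := by
  rw [pull_form, lin_eq l, map_sum, map_sum]
  apply Finset.sum_congr rfl
  intro i _
  rw [pderiv_C_mul, map_mul, eval_C]
  rfl

theorem omf_ : S_OMF := by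
  intro ι _ _ K hK u
  have h0 : pull K.φ (form (K.L 0)) = 1 := by
    apply MvPolynomial.funext
    intro x
    rw [eval_pull, eval_form, hK.L_zero, map_one]
  have h1 : ∀ j : Fin 6, pull K.φ (form (K.L j.succ)) = X j := by
    intro j
    apply MvPolynomial.funext
    intro x
    rw [eval_pull, eval_form, hK.L_succ, eval_X]
  have h2 : ∀ a : Fin 6, K.L 0 (dev K.φ a u) = 0 := by
    intro a
    rw [dev_form, h0]
    simp
  have h3 : ∀ a j : Fin 6, K.L j.succ (dev K.φ a u) = if a = j then 1 else 0 := by
    intro a j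
    rw [dev_form, h1, pderiv_X]
    by_cases h : a = j
    · subst h; simp
    · simp [h]
  refine ⟨?_, h2, h3⟩
  rw [omega_apply]
  have hU : (Matrix.of fun i j => K.L j (frame K.φ u i)).BlockTriangular id := by
    intro i j hij
    simp only [id] at hij
    rw [Matrix.of_apply]
    induction i using Fin.cases with
    | zero => exact absurd hij (Fin.not_lt_zero j)
    | succ a =>
      rw [frame_succ]
      induction j using Fin.cases with
      | zero => exact h2 a
      | succ b =>
        rw [h3 a b, if_neg]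
        intro hab
        rw [hab] at hij
        exact lt_irrefl _ hij
  rw [Matrix.det_of_isUpperTriangular hU]
  apply Finset.prod_eq_one
  intro i _
  rw [Matrix.of_apply]
  induction i using Fin.cases with
  | zero => rw [frame_zero]; exact hK.L_zero u
  | succ a => rw [frame_succ, h3 a a, if_pos rfl]

end Pool.Agent.T2h99.AP
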