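import Pool.Agent.T2h19.AP.Stm2

set_option autoImplicit false

open MvPolynomial

namespace Pool.Agent.T2h99.AP

open Pool.Agent.T2h19.AP

theorem rp_mul (a b : ℂ) (ha : a ≠ 0) (hb : b ≠ 0) (p q : MvPolynomial (Fin 6) ℂ)
    (h : IsRelPrime p q) : IsRelPrime (C a * p) (C b * q) := by
  have ua : IsUnit (C a : MvPolynomial (Fin 6) ℂ) := ha.isUnit.map C
  have ub : IsUnit (C b : MvPolynomial (Fin 6) ℂ) := hb.isUnit.map C
  intro d h1 h2
  exact h (ua.dvd_mul_left.1 h1) (ub.dvd_mul_left.1 h2)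

theorem wqp_ (hQAD : S_QAD) (hCEV : S_CEV) (hCNZ : S_CNZ) (hCPA : S_CPA) (_hADW : S_ADW) :
    S_WQP := by
  rintro w ⟨h, h', e1, e2, hw⟩
  -- determinants
  have d1 : h.det * h'.det = 1 := by
    have := congrArg Matrix.det e1
    rwa [Matrix.det_mul, Matrix.det_one] at this
  have dh : h.det ≠ 0 := left_ne_zero_of_mul (by rw [d1]; exact one_ne_zero)
  have dh' : -h'.det ≠ 0 := neg_ne_zero.2 (right_ne_zero_of_mul (by rw [d1]; exact one_ne_zero))
  set v : Fin 3 → ℂ := fun i => h' i 0 with hv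
  set f : Fin 3 → ℂ := fun j => h 2 j with hf
  have v0 : v ≠ 0 := by
    intro hc
    have h1 := congrFun (congrFun e1 0) 0
    rw [Matrix.mul_apply, Fin.sum_univ_three] at h1
    have c0 : h' 0 0 = 0 := congrFun hc 0
    have c1 : h' 1 0 = 0 := congrFun hc 1
    have c2 : h' 2 0 = 0 := congrFun hc 2
    rw [c0, c1, c2] at h1
    simp at h1
  have f0 : f ≠ 0 := by
    intro hc
    have h1 := congrFun (congrFun e1 2) 2
    rw [Matrix.mul_apply, Fin.sum_univ_three] at h1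
    have c0 : h 2 0 = 0 := congrFun hc 0
    have c1 : h 2 1 = 0 := congrFun hc 1
    have c2 : h 2 2 = 0 := congrFun hc 2
    rw [c0, c1, c2] at h1
    simp at h1
  have fv : ∑ i, f i * v i = 0 := by
    have h1 := congrFun (congrFun e1 2) 0
    rw [Matrix.mul_apply] at h1
    simpa using h1
  have rp := hCPA v f v0 f0 fv
  have rp' := rp_mul h.det (-h'.det) dh dh' _ _ rp
  have q1 : ∀ w' : (I4 → ℂ) ≃ₗ[ℂ] (I4 → ℂ), (∀ z, w' z = ad h h' z) →
      qpoly φ0 L0 w' = C h.det * cV v := by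
    intro w' hw'
    apply MvPolynomial.funext
    intro u
    rw [eval_qpoly, hw', (hQAD h h' e1 e2 u).1, map_mul, eval_C, (hCEV _ _).1]
  have q2 : ∀ w' : (I4 → ℂ) ≃ₗ[ℂ] (I4 → ℂ), (∀ z, w' z = γ0 (ad h h' z)) →
      qpoly φ0 L0 w' = C (-h'.det) * cF f := by
    intro w' hw'
    apply MvPolynomial.funext
    intro u
    rw [eval_qpoly, hw', (hQAD h h' e1 e2 u).2, map_mul, eval_C, (hCEV _ _).2]
    ring
  have n1 : C h.det * cV v ≠ 0 := mul_ne_zero (by simpa using dh) (hCNZ.1 v v0)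
  have n2 : C (-h'.det) * cF f ≠ 0 := mul_ne_zero (by simpa using dh') (hCNZ.2 f f0)
  have gg : ∀ z, γ0 (γ0 z) = z := _hADW.2.2.2.1
  rcases hw with hw | hw
  · have a := q1 w hw
    have b := q2 (w.trans γ0) (fun z => by rw [LinearEquiv.trans_apply, hw])
    rw [a, b]
    exact ⟨n1, rp'⟩
  · have a := q2 w hw
    have b := q1 (w.trans γ0) (fun z => by rw [LinearEquiv.trans_apply, hw, gg])
    rw [a, b]
    exact ⟨n2, rp'.symm⟩

end Pool.Agent.T2h99.AP
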